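import Pool.Agent.N620.RC.Abs

set_option autoImplicit false

/-! Measure: coding patterns by nonmeasurable sets. -/

namespace Pool.Agent.N620.RC

open Pool.Agent.Helper227 Pool.Agent.N620.WP
open MeasureTheory Filter Topology
open scoped ENNReal
open Pool.Agent.Y588.PD (Fam RLe exists_fam)

theorem exists_pre_of_isOpen {U : Set (ℕ → Bool)} (hU : IsOpen U) {x : ℕ → Bool} (hx : x ∈ U) :
    ∃ k, ∀ x', pre x' k = pre x k → x' ∈ U := by
  obtain ⟨I, v, hI, hv⟩ := isOpen_pi_iff.1 hU x hx
  refine ⟨I.sup id + 1, fun x' h' => hv fun i hi => ?_⟩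
  have h3 : i < I.sup id + 1 := Nat.lt_succ_of_le (Finset.le_sup (f := id) hi)
  rw [pre_eq_iff.1 h' i h3]
  exact (hI i hi).2

/-- Lusin's theorem. -/
theorem exists_lc (M : Measure (ℕ → Bool)) [IsFiniteMeasure M] {f : (ℕ → Bool) → ℕ → Bool}
    (hf : Measurable f) {ε : ℝ≥0∞} (hε : ε ≠ 0) :
    ∃ K : Set (ℕ → Bool), M Kᶜ < ε ∧ ∀ n, LC (fun y => f y n) K := by
  obtain ⟨δ, hδ, hδ'⟩ := ENNReal.exists_pos_sum_of_countable' hε (ℕ × Bool)
  have h1 : ∀ p : ℕ × Bool, MeasurableSet {y | f y p.1 = p.2} := fun p =>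
    (measurable_pi_iff.1 hf p.1) (MeasurableSet.singleton p.2)
  choose F hF1 hF2 hF3 using fun p : ℕ × Bool =>
    (h1 p).exists_isClosed_sdiff_lt (μ := M) (measure_ne_top _ _) (hδ p).ne'
  refine ⟨⋂ n, (F (n, true) ∪ F (n, false)), ?_, fun n y hy => ?_⟩
  · refine lt_of_le_of_lt (measure_mono ?_ : _ ≤ M (⋃ p, {y | f y p.1 = p.2} \ F p)) ?_
    · intro y hy
      simp only [Set.mem_compl_iff, Set.mem_iInter, Set.mem_union, not_forall, not_or] at hy
      obtain ⟨n, h2, h3⟩ := hy
      refine Set.mem_iUnion.2 ⟨(n, f y n), rfl, ?_⟩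
      rcases hb : f y n with _ | _
      · exact h3
      · exact h2
    · refine lt_of_le_of_lt (measure_iUnion_le _) (lt_of_le_of_lt ?_ hδ')
      exact ENNReal.tsum_le_tsum fun p => (hF3 p).le
  · have h2 : ∀ b, y ∈ F (n, b) → f y n = b := fun b hb => hF1 _ hb
    have h3 : y ∉ F (n, !(f y n)) := by
      intro h
      have := h2 _ h
      revert this
      cases f y n <;> simp
    obtain ⟨k, hk⟩ := exists_pre_of_isOpen (hF2 (n, !(f y n))).isOpen_compl h3
    refine ⟨k, fun y' hy' h' => ?_⟩
    have h4 : y' ∉ F (n, !(f y n)) := hk y' h'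
    have h5 := Set.mem_iInter.1 hy' n
    beta_reduce
    rcases hb : f y n with _ | _
    · rw [hb] at h4
      rcases h5 with h5 | h5
      · exact absurd h5 h4
      · exact hF1 (n, false) h5
    · rw [hb] at h4
      rcases h5 with h5 | h5
      · exact hF1 (n, true) h5
      · exact absurd h5 h4

theorem good_ae (M : Measure (ℕ → Bool)) [IsFiniteMeasure M] : Good (ae M) where
  cap f hf := by
    classical
    choose A hA hA' using hf
    let f' : (ℕ → Bool) → ℕ → Bool := fun y n => decide (y ∈ A n)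
    have hf' : Measurable f' := by
      refine measurable_pi_iff.2 fun n => measurable_to_bool ?_
      have h1 : (fun y => f' y n) ⁻¹' {true} = A n := by
        ext y
        simp [f']
      rw [h1]
      have h : (borel (ℕ → Bool)) = MeasurableSpace.pi :=
        (BorelSpace.measurable_eq (α := ℕ → Bool)).symm
      have h2 := hA n
      rwa [h] at h2
    have hff : ∀ᵐ y ∂M, f y = f' y := by
      have h1 : ∀ᵐ y ∂M, ∀ n, (f y n = true ↔ y ∈ A n) := by
        refine ae_all_iff.2 fun n => ?_
        filter_upwards [hA' n] with y hy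
        exact Iff.of_eq hy
      filter_upwards [h1] with y hy
      funext n
      have h2 := hy n
      by_cases h3 : y ∈ A n
      · simp only [f', h2.2 h3, decide_eq_true h3]
      · have h4 : ¬ f y n = true := fun h => h3 (h2.1 h)
        rw [Bool.not_eq_true] at h4
        simp only [f', h4, decide_eq_false h3]
    choose K hK hK' using fun m : ℕ =>
      exists_lc M hf' (ε := ((m : ℝ≥0∞))⁻¹) (ENNReal.inv_ne_zero.2 (ENNReal.natCast_ne_top m))
    obtain ⟨c, hc⟩ := exists_code_countable (D := K) (Θ := fun _ => f') fun m n => hK' m n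
    refine ⟨c, ?_⟩
    have h1 : ∀ᵐ y ∂M, ∃ m, y ∈ K m := by
      rw [ae_iff]
      by_contra hne
      obtain ⟨m, hm⟩ := ENNReal.exists_inv_nat_lt hne
      refine absurd (hm.trans_le (measure_mono ?_)) (not_lt.2 (hK m).le)
      intro y hy hy'
      exact hy ⟨m, hy'⟩
    filter_upwards [h1, hff] with y ⟨m, hm⟩ h3
    rw [h3]
    exact hc m y hm
  ccc P hP hdisj := by
    have h1 := Measure.countable_meas_pos_of_disjoint_iUnion (μ := M) hP fun r r' hr =>
      hdisj r r' hr
    refine h1.mono fun r hr => ?_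
    rw [Set.mem_ofPred_eq] at hr ⊢
    exact pos_iff_ne_zero.2 (frequently_ae_mem_iff.1 hr)

/-! ### The trace of a measure on a thick set -/

/-- The trace of `ν` on the thick set `Z`. -/
noncomputable def tr (ν : Measure (ℕ → Bool)) (Z : Set (ℕ → Bool))
    (hZ : ∀ P, MeasurableSet P → ν (Z ∩ P) = ν P) : Measure Z :=
  Measure.ofMeasurable (fun s _ => ν (Subtype.val '' s)) (by simp) (by
    intro f hf hd
    have hf' : ∀ i, ∃ P, MeasurableSet P ∧ Subtype.val ⁻¹' P = f i := hf
    choose P hP hP' using hf'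
    have h1 : ∀ i, Subtype.val '' f i = Z ∩ P i := by
      intro i
      rw [← hP' i, Subtype.image_preimage_coe]
    have h2 : (Subtype.val '' ⋃ i, f i) = Z ∩ ⋃ i, P i := by
      rw [Set.image_iUnion, Set.inter_iUnion]
      exact Set.iUnion_congr h1
    rw [h2, hZ _ (MeasurableSet.iUnion hP), measure_iUnion₀]
    · refine tsum_congr fun i => ?_
      rw [h1, hZ _ (hP i)]
    · intro i j hij
      have h3 : Z ∩ (P i ∩ P j) = ∅ := by
        ext z
        simp only [Set.mem_inter_iff, Set.mem_empty_iff_false, iff_false, not_and]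
        intro hz hzi hzj
        have h4 : (⟨z, hz⟩ : Z) ∈ f i := by
          rw [← hP' i]
          exact hzi
        have h5 : (⟨z, hz⟩ : Z) ∈ f j := by
          rw [← hP' j]
          exact hzj
        exact Set.disjoint_left.1 (hd hij) h4 h5
      rw [Function.onFun, AEDisjoint, ← hZ _ ((hP i).inter (hP j)), h3, measure_empty]
    · exact fun i => (hP i).nullMeasurableSet)

theorem map_tr (ν : Measure (ℕ → Bool)) (Z : Set (ℕ → Bool))
    (hZ : ∀ P, MeasurableSet P → ν (Z ∩ P) = ν P) : (tr ν Z hZ).map Subtype.val = ν := by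
  ext P hP
  rw [Measure.map_apply measurable_subtype_coe hP, tr,
    Measure.ofMeasurable_apply _ (measurable_subtype_coe hP), Subtype.image_preimage_coe, hZ P hP]

theorem isProb_tr (ν : Measure (ℕ → Bool)) [IsProbabilityMeasure ν] (Z : Set (ℕ → Bool))
    (hZ : ∀ P, MeasurableSet P → ν (Z ∩ P) = ν P) : IsProbabilityMeasure (tr ν Z hZ) where
  measure_univ := by
    have h := congrArg (fun m => m Set.univ) (map_tr ν Z hZ)
    simp only [Measure.map_apply measurable_subtype_coe MeasurableSet.univ,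
      Set.preimage_univ, measure_univ] at h
    exact h

theorem pattern_mes {B : Set (ℕ → Bool)} {μ : Measure (ℕ → Bool)} [IsFiniteMeasure μ]
    (hB : ¬ NullMeasurableSet B μ) : ∃ M : Measure (ℕ → Bool), IsProbabilityMeasure M ∧
      ∀ a : ℕ → Bool, ∀ G ∈ ae M, ∃ y ∈ G, ∀ k, (cl y k ∈ B ↔ a k = true) := by
  classical
  let R := toMeasurable μ B ∩ toMeasurable μ Bᶜ
  have hR : MeasurableSet R := (measurableSet_toMeasurable _ _).inter (measurableSet_toMeasurable _ _)
  have hR0 : μ R ≠ 0 := by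
    intro h0
    refine hB ?_
    refine NullMeasurableSet.congr (measurableSet_toMeasurable μ B).nullMeasurableSet ?_
    have h1 : ∀ᵐ y ∂μ, y ∉ R := measure_eq_zero_iff_ae_notMem.1 h0
    filter_upwards [h1] with y hy
    refine propext ⟨fun h2 => ?_, fun h2 => subset_toMeasurable μ B h2⟩
    by_contra h3
    exact hy ⟨h2, subset_toMeasurable μ Bᶜ h3⟩
  let ν := ProbabilityTheory.cond μ R
  have hν : IsProbabilityMeasure ν := ProbabilityTheory.cond_isProbabilityMeasure hR0
  have hth : ∀ Z, (Z = B ∨ Z = Bᶜ) → ∀ P, MeasurableSet P → ν (Z ∩ P) = ν P := by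
    intro Z hZ P hP
    have h1 : R ⊆ toMeasurable μ Z := by
      rcases hZ with rfl | rfl
      · exact Set.inter_subset_left
      · exact Set.inter_subset_right
    have h2 := Measure.measure_toMeasurable_inter (μ := μ) (hR.inter hP) (measure_ne_top μ Z)
    have h3 : toMeasurable μ Z ∩ (R ∩ P) = R ∩ P :=
      Set.inter_eq_right.2 (Set.inter_subset_left.trans h1)
    have h4 : R ∩ (Z ∩ P) = Z ∩ (R ∩ P) := by
      ext y
      simp only [Set.mem_inter_iff]
      tauto
    simp only [ν]
    rw [ProbabilityTheory.cond_apply hR, ProbabilityTheory.cond_apply hR, h4, ← h2, h3]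
  let M := (Measure.infinitePi fun _ : ℕ => ν).map J
  have hJ : Measurable J := continuous_J.measurable
  refine ⟨M, Measure.isProbabilityMeasure_map hJ.aemeasurable, fun a G hG => ?_⟩
  let Z : ℕ → Set (ℕ → Bool) := fun k => if a k = true then B else Bᶜ
  have hZ : ∀ k, ∀ P, MeasurableSet P → ν (Z k ∩ P) = ν P := by
    intro k
    refine hth _ ?_
    simp only [Z]
    split_ifs
    · exact Or.inl rfl
    · exact Or.inr rfl
  have hp : ∀ k, IsProbabilityMeasure (tr ν (Z k) (hZ k)) := fun k => isProb_tr ν _ _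
  have hmap := Measure.infinitePi_map_pi (μ := fun k => tr ν (Z k) (hZ k))
    (Y := fun _ : ℕ => ℕ → Bool) (f := fun _ => Subtype.val) fun _ => measurable_subtype_coe
  have hmap' : (Measure.infinitePi fun k => tr ν (Z k) (hZ k)).map
      (fun x k => (x k).1) = Measure.infinitePi fun _ : ℕ => ν := by
    rw [hmap]
    congr 1
    funext k
    exact map_tr ν _ _
  have hm : Measurable fun (x : (k : ℕ) → Z k) (k : ℕ) => (x k).1 :=
    measurable_pi_iff.2 fun k => measurable_subtype_coe.comp (measurable_pi_apply k)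
  have h1 : ∀ᵐ x ∂(Measure.infinitePi fun _ : ℕ => ν), J x ∈ G :=
    ae_of_ae_map hJ.aemeasurable hG
  rw [← hmap'] at h1
  have h2 := ae_of_ae_map hm.aemeasurable h1
  obtain ⟨x, hx⟩ := h2.exists
  refine ⟨_, hx, fun k => ?_⟩
  rw [cl_J]
  have h3 : (x k).1 ∈ Z k := (x k).2
  generalize (x k).1 = u at h3 ⊢
  by_cases ha : a k = true
  · have h4 : Z k = B := if_pos ha
    rw [h4] at h3
    exact iff_of_true h3 ha
  · have h4 : Z k = Bᶜ := if_neg ha
    rw [h4] at h3
    exact iff_of_false h3 ha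

end Pool.Agent.N620.RC
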