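import Pool.Agent.N620.RC.Cat
import Pool.Agent.N620.RC.Mes

set_option autoImplicit false

/-! Comparison of regularity classes. -/

namespace Pool.Agent.N620.RC

open Pool.Agent.Helper227 Pool.Agent.N620.WP Pool.Agent.H685R3
open MeasureTheory Filter Topology

/-- All Borel preimages of `B` have the Baire property. -/
def HB (B : Set (ℕ → Bool)) : Prop :=
  ∀ g : (ℕ → Bool) → ℕ → Bool, Measurable g → BaireMeasurableSet (g ⁻¹' B)

/-- `B` is measurable for all finite Borel measures. -/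
def UM (B : Set (ℕ → Bool)) : Prop :=
  ∀ μ : Measure (ℕ → Bool), IsFiniteMeasure μ → NullMeasurableSet B μ

variable {B C : Set (ℕ → Bool)}

theorem exceeds_hb (hB : ¬ HB B) (hC : HB C) (v : ℕ → Bool) : ∃ z, TLe v z ∧ Exc B C z := by
  unfold HB at hB
  push Not at hB
  obtain ⟨g, hg, hB⟩ := hB
  obtain ⟨g', hg', h1⟩ := pattern_cat hg hB
  exact good_residual.exceeds hg' h1 (fun F hF => hC F hF) v

theorem exceeds_um (hB : ¬ UM B) (hC : UM C) (v : ℕ → Bool) : ∃ z, TLe v z ∧ Exc B C z := by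
  unfold UM at hB
  push Not at hB
  obtain ⟨μ, hμ, hB⟩ := hB
  obtain ⟨M, hM, h1⟩ := pattern_mes hB
  refine (good_ae M).exceeds measurable_id h1 (fun F hF => ?_) v
  have h2 : NullMeasurableSet C (M.map F) := hC _ (by infer_instance)
  have h3 : NullMeasurableSet (F ⁻¹' C) M := h2.preimage ⟨hF, Measure.AbsolutelyContinuous.rfl⟩
  obtain ⟨t, ht, ht'⟩ := h3
  refine ⟨t, ?_, ht'⟩
  have h : (borel (ℕ → Bool)) = MeasurableSpace.pi :=
    (BorelSpace.measurable_eq (α := ℕ → Bool)).symm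
  rw [h]
  exact ht

theorem inv_Exc (B C : Set (ℕ → Bool)) : TuringInvariant {z | Exc B C z} :=
  fun _ _ h1 h2 h => inv_exc B C h1 h2 h

theorem cone_of_cofinal (hD : Determined {z | Exc B C z}) (h : ∀ v, ∃ z, TLe v z ∧ Exc B C z) :
    ∃ w, ∀ z, TLe w z → Exc B C z := by
  obtain ⟨w, hw | hw⟩ := cone_of_determined (inv_Exc B C) hD
  · exact ⟨w, hw⟩
  · obtain ⟨z, h1, h2⟩ := h w
    exact absurd h2 (hw z h1)

theorem exc_asymm {z : ℕ → Bool} (h : Exc B C z) (h' : Exc C B z) : False := by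
  obtain ⟨X, hX, h1⟩ := h
  obtain ⟨Y, hY, h2⟩ := h'
  exact (h2 X hX).2 (h1 Y hY).1

theorem compare (hD : Determined {z | Exc B C z}) (h : ∀ v, ∃ z, TLe v z ∧ Exc B C z)
    (h' : ∀ v, ∃ z, TLe v z ∧ Exc C B z) : False := by
  obtain ⟨w, hw⟩ := cone_of_cofinal hD h
  obtain ⟨z, h1, h2⟩ := h' w
  exact exc_asymm (hw z h1) h2

end Pool.Agent.N620.RC
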