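import Pool.Agent.N620.WP.Mea

set_option autoImplicit false

/-! Traces of sets of reals on sequences of reals, and regularity modulo a filter. -/

namespace Pool.Agent.N620.RC

open Pool.Agent.Helper227 Pool.Agent.N620.WP
open MeasureTheory Filter
open Pool.Agent.Y588.PD (Fam RLe exists_fam)

/-- The `k`-th column of `y`. -/
def cl (y : ℕ → Bool) (k : ℕ) : ℕ → Bool := fun n => y (Nat.pair k n)

open Classical in
/-- The set of the indices of the columns of `X` which belong to `B`. -/
noncomputable def Tr (B : Set (ℕ → Bool)) (X : ℕ → Bool) : ℕ → Bool := fun k => decide (cl X k ∈ B)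

/-- `B` exceeds `C` at `z`. -/
def Exc (B C : Set (ℕ → Bool)) (z : ℕ → Bool) : Prop :=
  ∃ X, TLe X z ∧ ∀ Y, TLe Y z →
    TLe (join (Tr C Y) z) (join (Tr B X) z) ∧ ¬ TLe (join (Tr B X) z) (join (Tr C Y) z)

/-- The filter `l` captures measurable functions, and the algebra of the Borel sets modulo `l`
satisfies the countable chain condition. -/
structure Good (l : Filter (ℕ → Bool)) [CountableInterFilter l] : Prop where
  cap : ∀ f : (ℕ → Bool) → ℕ → Bool, (∀ n, EventuallyMeasurableSet (borel _) l {y | f y n = true}) →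
    ∃ c, ∀ᶠ y in l, TLe (f y) (join y c)
  ccc : ∀ P : (ℕ → Bool) → Set (ℕ → Bool), (∀ r, MeasurableSet (P r)) →
    (∀ r r', r ≠ r' → Disjoint (P r) (P r')) → {r | ∃ᶠ y in l, y ∈ P r}.Countable

theorem continuous_join' (u : ℕ → Bool) : Continuous fun c => join c u := by
  rw [← continuousOn_univ]
  refine LC.continuousOn fun n x _ => ?_
  rcases Nat.even_or_odd' n with ⟨k, rfl | rfl⟩
  · refine ⟨k + 1, fun x' _ h => ?_⟩
    beta_reduce
    rw [join_even, join_even]
    exact pre_eq_iff.1 h k (by omega)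
  · exact ⟨0, fun x' _ _ => by beta_reduce; rw [join_odd, join_odd]⟩

theorem measurable_psiU {E : ℕ → List Bool → ℕ → Bool → Prop} (hE : Fam E) (e : ℕ) :
    Measurable fun y : ℕ → Bool => Psi (UE E) e y := by
  classical
  refine measurable_pi_iff.2 fun m => measurable_to_bool ?_
  have h1 : (fun y : ℕ → Bool => Psi (UE E) e y m) ⁻¹' {true} =
      (⋂ n : ℕ, ⋃ b : Bool, UE E e n b) ∩ UE E e m true := by
    ext y
    simp only [Set.mem_preimage, Set.mem_singleton_iff, Psi, Set.mem_inter_iff, Set.mem_iInter,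
      Set.mem_iUnion]
    by_cases hd : Dm (UE E) e y
    · rw [if_pos hd]
      exact ⟨fun h => ⟨hd, of_decide_eq_true h⟩, fun h => decide_eq_true h.2⟩
    · rw [if_neg hd]
      exact ⟨fun h => absurd h (by simp), fun h => absurd h.1 hd⟩
  rw [h1]
  refine MeasurableSet.inter (MeasurableSet.iInter fun n => MeasurableSet.iUnion fun b => ?_) ?_
  · exact ((pf_UE hE).isOpen e n b).measurableSet
  · exact ((pf_UE hE).isOpen e m true).measurableSet

theorem measurable_cmp {E : ℕ → List Bool → ℕ → Bool → Prop} (hE : Fam E) (e : ℕ)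
    (c r : ℕ → Bool) : MeasurableSet {y | Cmp E e (join y c) r} := by
  have h1 : {y | Cmp E e (join y c) r} = ⋂ m : ℕ, (fun y => join y c) ⁻¹' UE E e m (r m) := by
    ext y
    simp [Cmp]
  rw [h1]
  exact MeasurableSet.iInter fun m =>
    (((pf_UE hE).isOpen e m (r m)).preimage (continuous_join' c)).measurableSet

variable {l : Filter (ℕ → Bool)} [CountableInterFilter l]

theorem Good.avoid (h : Good l) (c : ℕ → Bool) : ∃ r, ∀ᶠ y in l, ¬ TLe r (join y c) := by
  obtain ⟨E, hE, hE'⟩ := exists_fam
  by_contra hcon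
  push Not at hcon
  refine not_countable_univ ?_
  have h1 : (Set.univ : Set (ℕ → Bool)) ⊆
      ⋃ e : ℕ, {r | ∃ᶠ y in l, y ∈ {y | Cmp E e (join y c) r}} := by
    intro r _
    have h2 : ∃ᶠ y in l, TLe r (join y c) := hcon r
    by_contra hc
    simp only [Set.mem_iUnion, not_exists, Set.mem_ofPred_eq, not_frequently] at hc
    refine h2 ((eventually_countable_forall.2 hc).mono fun y hy hr => ?_)
    obtain ⟨e, he⟩ := (hE' _ _).1 hr
    exact hy e he
  refine Set.Countable.mono h1 (Set.countable_iUnion fun e => ?_)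
  refine h.ccc _ (fun r => measurable_cmp hE e c r) fun r r' hr => ?_
  rw [Set.disjoint_left]
  intro y hy hy'
  exact hr ((Cmp.psi hE hy).symm.trans (Cmp.psi hE hy'))

theorem cl_J (x : ℕ → ℕ → Bool) (k : ℕ) : cl (J x) k = x k := by
  funext n
  simp [cl, J]

theorem measurable_cl (k : ℕ) : Measurable fun y : ℕ → Bool => cl y k :=
  measurable_pi_iff.2 fun _ => measurable_pi_apply _

theorem measurable_J_comp {g : (ℕ → Bool) → ℕ → Bool} (hg : Measurable g) :
    Measurable fun y : ℕ → Bool => J fun k => g (cl y k) :=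
  measurable_pi_iff.2 fun _ => (measurable_pi_apply _).comp (hg.comp (measurable_cl _))

theorem emeas {s : Set (ℕ → Bool)} (hs : MeasurableSet s) : EventuallyMeasurableSet (borel _) l s :=
  ⟨s, by
    have h : (borel (ℕ → Bool)) = MeasurableSpace.pi := (BorelSpace.measurable_eq (α := ℕ → Bool)).symm
    rw [h]
    exact hs, EventuallyEq.rfl⟩

/-- Sets coding all patterns exceed the regular sets cofinally often. -/
theorem Good.exceeds (h : Good l) {B C : Set (ℕ → Bool)} {g : (ℕ → Bool) → ℕ → Bool}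
    (hg : Measurable g)
    (hpat : ∀ a : ℕ → Bool, ∀ G ∈ l, ∃ y ∈ G, ∀ k, (g (cl y k) ∈ B ↔ a k = true))
    (hC : ∀ F : (ℕ → Bool) → ℕ → Bool, Measurable F → EventuallyMeasurableSet (borel _) l (F ⁻¹' C))
    (v : ℕ → Bool) : ∃ z, TLe v z ∧ Exc B C z := by
  classical
  obtain ⟨E, hE, hE'⟩ := exists_fam
  obtain ⟨c0, hc0⟩ := h.cap (fun y => J fun k => g (cl y k)) fun n =>
    emeas ((measurable_pi_iff.1 (measurable_J_comp hg) n) (MeasurableSet.singleton true))
  have h1 : ∀ e : ℕ, ∃ c, ∀ᶠ y in l,
      TLe (Tr C (Psi (UE E) e (join y (join v c0)))) (join y c) := by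
    intro e
    refine h.cap _ fun n => ?_
    have h2 : {y | Tr C (Psi (UE E) e (join y (join v c0))) n = true} =
        (fun y => cl (Psi (UE E) e (join y (join v c0))) n) ⁻¹' C := by
      ext y
      simp [Tr]
    rw [h2]
    refine hC _ ?_
    exact (measurable_cl n).comp ((measurable_psiU hE e).comp (continuous_join' _).measurable)
  choose c1 hc1 using h1
  obtain ⟨c2, hc2⟩ := join_cone c1
  obtain ⟨r, hr⟩ := h.avoid (join c2 (join v c0))
  obtain ⟨y, ⟨hy1, hy2, hy3⟩, hy4⟩ := hpat (join (join c2 (join v c0)) r) _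
    (hc0.and ((eventually_countable_forall.2 hc1).and hr))
  have hX : Tr B (J fun k => g (cl y k)) = join (join c2 (join v c0)) r := by
    funext k
    have h2 := hy4 k
    simp only [Tr, cl_J]
    by_cases h3 : g (cl y k) ∈ B
    · rw [decide_eq_true h3, h2.1 h3]
    · rw [decide_eq_false h3]
      have h4 : ¬ join (join c2 (join v c0)) r k = true := fun h4 => h3 (h2.2 h4)
      simpa using h4
  refine ⟨join y (join v c0), (tLe_join_left _ _).trans (tLe_join_right _ _),
    J fun k => g (cl y k), hy1.trans (join_tLe (tLe_join_left _ _)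
      ((tLe_join_right _ _).trans (tLe_join_right _ _))), fun Y hY => ?_⟩
  rw [hX]
  obtain ⟨e, he⟩ := (hE' _ _).1 hY
  have h2 : Psi (UE E) e (join y (join v c0)) = Y := Cmp.psi hE he
  have h3 : TLe (Tr C Y) (join y (join c2 (join v c0))) := by
    have h4 := hy2 e
    rw [h2] at h4
    exact h4.trans (join_tLe (tLe_join_left _ _)
      ((hc2 e).trans ((tLe_join_left _ _).trans (tLe_join_right _ _))))
  constructor
  · refine join_tLe (h3.trans (join_tLe ?_ ?_)) (tLe_join_right _ _)
    · exact (tLe_join_left _ _).trans (tLe_join_right _ _)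
    · exact (tLe_join_left _ _).trans (tLe_join_left _ _)
  · intro h4
    refine hy3 ?_
    have h5 : TLe r (join (join (join c2 (join v c0)) r) (join y (join v c0))) :=
      (tLe_join_right _ _).trans (tLe_join_left _ _)
    refine (h5.trans h4).trans (join_tLe h3 (join_tLe (tLe_join_left _ _) ?_))
    exact (tLe_join_right _ _).trans (tLe_join_right _ _)

theorem inv_exc (B C : Set (ℕ → Bool)) {z z' : ℕ → Bool} (h1 : TLe z z') (h2 : TLe z' z)
    (h : Exc B C z) : Exc B C z' := by
  obtain ⟨X, hX, h3⟩ := h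
  refine ⟨X, hX.trans h1, fun Y hY => ?_⟩
  obtain ⟨h4, h5⟩ := h3 Y (hY.trans h2)
  constructor
  · refine join_tLe ((tLe_join_left _ _).trans (h4.trans ?_)) (tLe_join_right _ _)
    exact join_tLe (tLe_join_left _ _) (h1.trans (tLe_join_right _ _))
  · intro h6
    refine h5 (join_tLe ((tLe_join_left _ _).trans (h6.trans ?_)) (tLe_join_right _ _))
    exact join_tLe (tLe_join_left _ _) (h2.trans (tLe_join_right _ _))

end Pool.Agent.N620.RC
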