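import Pool.Agent.N620.RC.Abs

set_option autoImplicit false

/-! Category: coding patterns by sets without the Baire property. -/

namespace Pool.Agent.N620.RC

open Pool.Agent.Helper227 Pool.Agent.N620.WP
open MeasureTheory Filter Topology
open Pool.Agent.Y588.PD (Fam RLe exists_fam)

theorem exists_pre_of_open {U : Set (ℕ → Bool)} (hU : IsOpen U) {x : ℕ → Bool} (hx : x ∈ U) :
    ∃ k, ∀ x', pre x' k = pre x k → x' ∈ U := by
  obtain ⟨I, v, hI, hv⟩ := isOpen_pi_iff.1 hU x hx
  refine ⟨I.sup id + 1, fun x' h' => hv fun i hi => ?_⟩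
  have h3 : i < I.sup id + 1 := Nat.lt_succ_of_le (Finset.le_sup (f := id) hi)
  rw [pre_eq_iff.1 h' i h3]
  exact (hI i hi).2

theorem good_residual : Good (residual (ℕ → Bool)) where
  cap f hf := by
    have h1 : ∀ n, BaireMeasurableSet {y | f y n = true} := hf
    choose U hU hU' using fun n => (h1 n).residualEq_isOpen
    choose V hV hV' using fun n => (h1 n).compl.residualEq_isOpen
    have h2 : ∀ᶠ y in residual (ℕ → Bool), ∀ n, (f y n = true ↔ y ∈ U n) ∧
        (¬ f y n = true ↔ y ∈ V n) := by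
      refine eventually_countable_forall.2 fun n => ?_
      filter_upwards [(hU' n), (hV' n)] with y h3 h4
      exact ⟨Iff.of_eq h3, Iff.of_eq h4⟩
    obtain ⟨c, hc⟩ := exists_code (D := {y | ∀ n, (f y n = true ↔ y ∈ U n) ∧
        (¬ f y n = true ↔ y ∈ V n)}) (Θ := f) fun n y hy => by
      by_cases h3 : f y n = true
      · obtain ⟨k, hk⟩ := exists_pre_of_open (hU n) (((hy n).1).1 h3)
        refine ⟨k, fun x' hx' h' => ?_⟩
        beta_reduce
        rw [h3]
        exact ((hx' n).1).2 (hk x' h')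
      · obtain ⟨k, hk⟩ := exists_pre_of_open (hV n) (((hy n).2).1 h3)
        refine ⟨k, fun x' hx' h' => ?_⟩
        have h4 := ((hx' n).2).2 (hk x' h')
        beta_reduce
        rw [Bool.not_eq_true] at h3 h4
        rw [h3, h4]
    exact ⟨c, h2.mono fun y hy => hc y hy⟩
  ccc P hP hdisj := by
    have h1 : ∀ r, BaireMeasurableSet (P r) := fun r => (hP r).baireMeasurableSet
    choose U hU hU' using fun r => (h1 r).residualEq_isOpen
    refine Set.PairwiseDisjoint.countable_of_isOpen (s := U) ?_ (fun r _ => hU r) ?_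
    · intro r _ r' _ hr
      rw [Function.onFun, Set.disjoint_iff_inter_eq_empty]
      by_contra hne
      refine not_isMeagre_of_isOpen ((hU r).inter (hU r')) (Set.nonempty_iff_ne_empty.2 hne) ?_
      rw [IsMeagre]
      filter_upwards [hU' r, hU' r'] with y h2 h3 h4
      have h5 : y ∈ P r := by
        have : (y ∈ P r) = (y ∈ U r) := h2
        rw [this]
        exact h4.1
      have h6 : y ∈ P r' := by
        have : (y ∈ P r') = (y ∈ U r') := h3
        rw [this]
        exact h4.2
      exact Set.disjoint_left.1 (hdisj r r' hr) h5 h6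
    · intro r hr
      by_contra hne
      rw [Set.not_nonempty_iff_eq_empty] at hne
      refine hr ?_
      filter_upwards [hU' r] with y h2 h3
      have : (y ∈ P r) = (y ∈ U r) := h2
      rw [this, hne] at h3
      exact h3

/-! ### Sections of comeager sets -/

/-- `w` with the first `n` terms replaced by those of `x`. -/
def fl (x : ℕ → ℕ → Bool) (n : ℕ) (w : ℕ → ℕ → Bool) : ℕ → ℕ → Bool :=
  fun i => if i < n then x i else w i

theorem continuous_fl (x : ℕ → ℕ → Bool) (n : ℕ) : Continuous (fl x n) := by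
  refine continuous_pi fun i => ?_
  unfold fl
  by_cases h : i < n
  · simp only [h, if_true]
    exact continuous_const
  · simp only [h, if_false]
    exact continuous_apply i

theorem continuous_fl' (x : ℕ → ℕ → Bool) (n : ℕ) (w : ℕ → ℕ → Bool) :
    Continuous fun c => fl (Function.update x n c) (n + 1) w := by
  refine continuous_pi fun i => ?_
  unfold fl
  by_cases h : i < n + 1
  · simp only [h, if_true]
    exact (continuous_apply (A := fun _ : ℕ => ℕ → Bool) i).comp
      (continuous_const.update n continuous_id)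
  · simp only [h, if_false]
    exact continuous_const

theorem fl_update (x w : ℕ → ℕ → Bool) (n : ℕ) (d : ℕ → Bool) :
    fl (Function.update x n (w n)) (n + 1) (Function.update w n d) = fl x n w := by
  funext i
  unfold fl
  rcases lt_trichotomy i n with h | rfl | h
  · rw [if_pos (by omega), if_pos h, Function.update_of_ne (by omega)]
  · rw [if_pos (by omega), if_neg (by omega), Function.update_self]
  · rw [if_neg (by omega), if_neg (by omega), Function.update_of_ne (by omega)]

theorem sections {O : ℕ → Set (ℕ → ℕ → Bool)} (hO : ∀ m, IsOpen (O m)) {n : ℕ}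
    {x : ℕ → ℕ → Bool} (h : ∀ m, Dense {w | fl x n w ∈ O m}) :
    ∀ᶠ c in residual (ℕ → Bool), ∀ m, Dense {w | fl (Function.update x n c) (n + 1) w ∈ O m} := by
  obtain ⟨b, hb, -, hb'⟩ := TopologicalSpace.exists_countable_basis (ℕ → ℕ → Bool)
  have h1 : ∀ᶠ c in residual (ℕ → Bool), ∀ m, ∀ N ∈ b, N.Nonempty →
      ∃ w ∈ N, fl (Function.update x n c) (n + 1) w ∈ O m := by
    refine eventually_countable_forall.2 fun m => (eventually_countable_ball hb).2 fun N hN => ?_
    by_cases hne : N.Nonempty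
    · have h2 : {c | ∃ w ∈ N, fl (Function.update x n c) (n + 1) w ∈ O m} ∈ residual (ℕ → Bool) := by
        refine residual_of_dense_open ?_ ?_
        · have h3 : {c | ∃ w ∈ N, fl (Function.update x n c) (n + 1) w ∈ O m} =
              ⋃ w ∈ N, (fun c => fl (Function.update x n c) (n + 1) w) ⁻¹' O m := by
            ext c
            simp
          rw [h3]
          exact isOpen_biUnion fun w _ => (hO m).preimage (continuous_fl' x n w)
        · rw [dense_iff_inter_open]
          rintro T hT ⟨t, ht⟩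
          obtain ⟨w0, hw0⟩ := hne
          have h4 : IsOpen {w : ℕ → ℕ → Bool | w n ∈ T ∧ ∃ d, Function.update w n d ∈ N} := by
            have h5 : {w : ℕ → ℕ → Bool | w n ∈ T ∧ ∃ d, Function.update w n d ∈ N} =
                (fun w => w n) ⁻¹' T ∩ ⋃ d, (fun w => Function.update w n d) ⁻¹' N := by
              ext w
              simp
            rw [h5]
            refine (hT.preimage (continuous_apply n)).inter (isOpen_iUnion fun d => ?_)
            exact (hb'.isOpen hN).preimage (continuous_id.update n continuous_const)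
          obtain ⟨w, ⟨h5, d, h6⟩, h7⟩ := (h m).inter_open_nonempty _ h4
            ⟨Function.update w0 n t, by simpa using ht, w0 n, by simpa using hw0⟩
          refine ⟨w n, h5, Function.update w n d, h6, ?_⟩
          rw [fl_update]
          exact h7
      filter_upwards [h2] with c hc _
      exact hc
    · exact Eventually.of_forall fun c h3 => absurd h3 hne
  filter_upwards [h1] with c hc m
  rw [hb'.dense_iff]
  intro N hN hne
  obtain ⟨w, h2, h3⟩ := hc m N hN hne
  exact ⟨w, h2, h3⟩

/-- Comeager sets contain sequences with a prescribed relation to a set which is thick in the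
sense of category and has a thick complement. -/
theorem pattern {D : Set (ℕ → Bool)}
    (hD : ∀ W : Set (ℕ → Bool), IsOpen W → W.Nonempty → ¬ IsMeagre (D ∩ W) ∧ ¬ IsMeagre (W \ D))
    (a : ℕ → Bool) {G : Set (ℕ → ℕ → Bool)} (hG : G ∈ residual (ℕ → ℕ → Bool)) :
    ∃ x ∈ G, ∀ k, (x k ∈ D ↔ a k = true) := by
  obtain ⟨T, hTG, hT, hTd⟩ := mem_residual.1 hG
  obtain ⟨O, hO, rfl⟩ := isGδ_iff_eq_iInter_nat.1 hT
  have hOd : ∀ m, Dense (O m) := fun m => hTd.mono (Set.iInter_subset _ _)
  let Inv : ℕ → (ℕ → ℕ → Bool) × Set (ℕ → ℕ → Bool) → Prop := fun n p =>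
    IsClopen p.2 ∧ (∀ m, Dense {w | fl p.1 n w ∈ O m}) ∧ ∃ w, fl p.1 n w ∈ p.2
  have hstep : ∀ (n : ℕ) (p : {p // Inv n p}), ∃ q : {q // Inv (n + 1) q},
      (∀ i < n, q.1.1 i = p.1.1 i) ∧ (q.1.1 n ∈ D ↔ a n = true) ∧ q.1.2 ⊆ p.1.2 ∩ O n := by
    rintro n ⟨⟨x, V⟩, h1, h2, w0, h3⟩
    simp only at h1 h2 h3 ⊢
    obtain ⟨w, h4, h5⟩ := (h2 n).inter_open_nonempty (fl x n ⁻¹' V)
      (h1.isOpen.preimage (continuous_fl x n)) ⟨w0, h3⟩
    obtain ⟨V', h6, h7, h8⟩ := compact_exists_isClopen_in_isOpen (h1.isOpen.inter (hO n))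
      (show fl x n w ∈ V ∩ O n from ⟨h4, h5⟩)
    have h9 : IsOpen ((fun c => fl (Function.update x n c) (n + 1) w) ⁻¹' V') :=
      h6.isOpen.preimage (continuous_fl' x n w)
    have h10 : ((fun c => fl (Function.update x n c) (n + 1) w) ⁻¹' V').Nonempty := by
      refine ⟨w n, ?_⟩
      have h11 := fl_update x w n (w n)
      rw [Function.update_eq_self] at h11
      rw [Set.mem_preimage, h11]
      exact h7
    have h12 : ∃ c, fl (Function.update x n c) (n + 1) w ∈ V' ∧ (c ∈ D ↔ a n = true) ∧
        ∀ m, Dense {w | fl (Function.update x n c) (n + 1) w ∈ O m} := by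
      by_contra hcon
      push Not at hcon
      by_cases ha : a n = true
      · refine (hD _ h9 h10).1 ?_
        rw [IsMeagre]
        filter_upwards [sections hO h2] with c hc h13
        obtain ⟨m, hm⟩ := hcon c h13.2 (by simp [ha, h13.1])
        exact hm (hc m)
      · refine (hD _ h9 h10).2 ?_
        rw [IsMeagre]
        filter_upwards [sections hO h2] with c hc h13
        obtain ⟨m, hm⟩ := hcon c h13.1 (by simp [ha, h13.2])
        exact hm (hc m)
    obtain ⟨c, h13, h14, h15⟩ := h12
    refine ⟨⟨(Function.update x n c, V'), h6, h15, w, h13⟩, fun i hi => ?_, ?_, h8⟩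
    · exact Function.update_of_ne (by omega) _ _
    · simpa using h14
  choose N hN1 hN2 hN3 using hstep
  have h0 : Inv 0 (fun _ _ => false, Set.univ) := by
    refine ⟨isClopen_univ, fun m => ?_, fun _ _ => false, trivial⟩
    have : {w | fl (fun _ _ => false) 0 w ∈ O m} = O m := by
      ext w
      have h2 : fl (fun _ _ => false) 0 w = w := by
        funext i
        simp [fl]
      simp only [Set.mem_ofPred_eq, h2]
    rw [this]
    exact hOd m
  let s : (n : ℕ) → {p // Inv n p} := fun n => Nat.rec ⟨_, h0⟩ (fun n p => N n p) n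
  have hs : ∀ n, s (n + 1) = N n (s n) := fun n => rfl
  let y : ℕ → ℕ → Bool := fun i => (s (i + 1)).1.1 i
  have h1 : ∀ i n, i + 1 ≤ n → (s n).1.1 i = y i := by
    intro i n hn
    induction n, hn using Nat.le_induction with
    | base => rfl
    | succ n hn ih =>
      rw [hs, hN1 n (s n) i (by omega), ih]
  have h2 : ∀ m n, m ≤ n → (s n).1.2 ⊆ (s m).1.2 := by
    intro m n hn
    induction n, hn using Nat.le_induction with
    | base => exact subset_rfl
    | succ n _ ih =>
      rw [hs]
      exact ((hN3 n (s n)).trans Set.inter_subset_left).trans ih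
  choose w hw using fun n => (s n).2.2.2
  have h3 : Tendsto (fun n => fl (s n).1.1 n (w n)) atTop (𝓝 y) := by
    rw [tendsto_pi_nhds]
    intro i
    refine tendsto_const_nhds.congr' ?_
    filter_upwards [eventually_ge_atTop (i + 1)] with n hn
    unfold fl
    rw [if_pos (by omega), h1 i n hn]
  refine ⟨y, hTG (Set.mem_iInter.2 fun m => ?_), fun k => ?_⟩
  · have h4 : y ∈ (s (m + 1)).1.2 := by
      refine (s (m + 1)).2.1.isClosed.mem_of_tendsto h3 ?_
      filter_upwards [eventually_ge_atTop (m + 1)] with n hn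
      exact h2 _ _ hn (hw n)
    rw [hs] at h4
    exact (hN3 m (s m) h4).2
  · have h4 := hN2 k (s k)
    rw [← hs] at h4
    exact h4

/-! ### Sets without the Baire property -/

theorem exists_thick {D : Set (ℕ → Bool)} (hD : ¬ BaireMeasurableSet D) :
    ∃ O : Set (ℕ → Bool), IsOpen O ∧ O.Nonempty ∧ ∀ W : Set (ℕ → Bool), IsOpen W → W.Nonempty →
      W ⊆ O → ¬ IsMeagre (D ∩ W) ∧ ¬ IsMeagre (W \ D) := by
  obtain ⟨b, hb, -, hb'⟩ := TopologicalSpace.exists_countable_basis (ℕ → Bool)
  let b1 := {N ∈ b | IsMeagre (D ∩ N)}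
  let b2 := {N ∈ b | IsMeagre (N \ D)}
  have hU1 : IsMeagre (D ∩ ⋃₀ b1) := by
    have : D ∩ ⋃₀ b1 = ⋃ N : b1, D ∩ N.1 := by
      rw [Set.sUnion_eq_iUnion, Set.inter_iUnion]
    rw [this]
    have : Countable b1 := (hb.mono fun N hN => hN.1).to_subtype
    exact isMeagre_iUnion fun N => N.2.2
  have hU2 : IsMeagre (⋃₀ b2 \ D) := by
    have : ⋃₀ b2 \ D = ⋃ N : b2, N.1 \ D := by
      rw [Set.sUnion_eq_iUnion, Set.iUnion_sdiff]
    rw [this]
    have : Countable b2 := (hb.mono fun N hN => hN.1).to_subtype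
    exact isMeagre_iUnion fun N => N.2.2
  have ho1 : IsOpen (⋃₀ b1) := isOpen_sUnion fun N hN => hb'.isOpen hN.1
  have ho2 : IsOpen (⋃₀ b2) := isOpen_sUnion fun N hN => hb'.isOpen hN.1
  have hnd : ¬ Dense (⋃₀ b1 ∪ ⋃₀ b2) := by
    intro hd
    refine hD (BaireMeasurableSet.congr ho2.baireMeasurableSet ?_)
    filter_upwards [hU1, hU2, residual_of_dense_open (ho1.union ho2) hd] with y h1 h2 h3
    refine propext ⟨fun h4 => ?_, fun h4 => ?_⟩
    · by_contra h5
      exact h2 ⟨h4, h5⟩
    · rcases h3 with h5 | h5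
      · exact absurd ⟨h4, h5⟩ h1
      · exact h5
  refine ⟨(closure (⋃₀ b1 ∪ ⋃₀ b2))ᶜ, isClosed_closure.isOpen_compl, ?_, fun W hW hne hWO => ?_⟩
  · rw [Set.nonempty_compl]
    exact fun h => hnd (dense_iff_closure_eq.2 h)
  · obtain ⟨x, hx⟩ := hne
    obtain ⟨N, hN, hxN, hNW⟩ := hb'.exists_subset_of_mem_open hx hW
    have hxO := hWO hx
    constructor
    · intro h
      refine hxO (subset_closure (Or.inl ⟨N, ⟨hN, h.mono ?_⟩, hxN⟩))
      exact Set.inter_subset_inter_right _ hNW
    · intro h
      refine hxO (subset_closure (Or.inr ⟨N, ⟨hN, h.mono ?_⟩, hxN⟩))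
      exact Set.sdiff_subset_sdiff_left hNW

theorem isOpenMap_shift (n : ℕ) : IsOpenMap fun (x : ℕ → Bool) i => x (i + n) := by
  intro U hU
  rw [isOpen_iff_mem_nhds]
  rintro _ ⟨x, hx, rfl⟩
  obtain ⟨k, hk⟩ := exists_pre_of_open hU hx
  refine Filter.mem_of_superset ((isOpen_pre _ k).mem_nhds rfl) fun y hy => ?_
  refine ⟨fun i => if i < n then x i else y (i - n), hk _ (pre_eq_iff.2 fun i hi => ?_), ?_⟩
  · by_cases h : i < n
    · simp only [h, if_true]
    · simp only [h, if_false]
      have h1 := pre_eq_iff.1 hy (i - n) (by omega)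
      simp only at h1
      rw [h1]
      congr 1
      omega
  · funext i
    simp

/-- A set without the Baire property has a preimage which is everywhere thick and has an everywhere
thick complement. -/
theorem exists_shift {D : Set (ℕ → Bool)} (hD : ¬ BaireMeasurableSet D) :
    ∃ s : (ℕ → Bool) → ℕ → Bool, Continuous s ∧ ∀ W : Set (ℕ → Bool), IsOpen W → W.Nonempty →
      ¬ IsMeagre (s ⁻¹' D ∩ W) ∧ ¬ IsMeagre (W \ s ⁻¹' D) := by
  obtain ⟨O, hO, ⟨x, hx⟩, h1⟩ := exists_thick hD
  obtain ⟨n, hn⟩ := exists_pre_of_open hO hx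
  let s : (ℕ → Bool) → ℕ → Bool := fun y i => if i < n then x i else y (i - n)
  have hs : Continuous s := by
    refine continuous_pi fun i => ?_
    simp only [s]
    by_cases h : i < n
    · simp only [h, if_true]
      exact continuous_const
    · simp only [h, if_false]
      exact continuous_apply _
  have hu : Continuous fun (x : ℕ → Bool) i => x (i + n) :=
    continuous_pi fun i => continuous_apply _
  refine ⟨s, hs, fun W hW ⟨y, hy⟩ => ?_⟩
  have h2 : IsOpen ((fun (x : ℕ → Bool) i => x (i + n)) ⁻¹' W ∩ {z | pre z n = pre x n}) :=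
    (hW.preimage hu).inter (isOpen_pre x n)
  have h3 : ∀ z, pre z n = pre x n → s (fun i => z (i + n)) = z := by
    intro z hz
    funext i
    simp only [s]
    by_cases h : i < n
    · rw [if_pos h, pre_eq_iff.1 hz i h]
    · rw [if_neg h]
      congr 1
      omega
  have h4 := h1 _ h2 ⟨s y, by
    simp only [Set.mem_inter_iff, Set.mem_preimage, Set.mem_ofPred_eq]
    refine ⟨?_, pre_eq_iff.2 fun i hi => by simp only [s]; rw [if_pos hi]⟩
    have : (fun i => s y (i + n)) = y := by
      funext i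
      simp [s]
    rw [this]
    exact hy⟩ fun z hz => hn z hz.2
  constructor
  · intro h5
    refine h4.1 ((h5.preimage_of_isOpenMap hu (isOpenMap_shift n)).mono ?_)
    rintro z ⟨hz1, hz2, hz3⟩
    refine ⟨?_, hz2⟩
    simp only [Set.mem_preimage]
    rw [h3 z hz3]
    exact hz1
  · intro h5
    refine h4.2 ((h5.preimage_of_isOpenMap hu (isOpenMap_shift n)).mono ?_)
    rintro z ⟨⟨hz2, hz3⟩, hz1⟩
    refine ⟨hz2, ?_⟩
    simp only [Set.mem_preimage]
    rw [h3 z hz3]
    exact hz1

/-- The homeomorphism coding sequences of reals. -/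
def hJ : (ℕ → ℕ → Bool) ≃ₜ (ℕ → Bool) where
  toFun := J
  invFun := cl
  left_inv x := funext fun k => cl_J x k
  right_inv y := by
    funext n
    simp [J, cl]
  continuous_toFun := continuous_J
  continuous_invFun := by
    refine continuous_pi fun k => continuous_pi fun n => ?_
    exact continuous_apply (A := fun _ : ℕ => Bool) _

theorem pattern_cat {B : Set (ℕ → Bool)} {g : (ℕ → Bool) → ℕ → Bool} (hg : Measurable g)
    (hB : ¬ BaireMeasurableSet (g ⁻¹' B)) : ∃ g' : (ℕ → Bool) → ℕ → Bool, Measurable g' ∧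
      ∀ a : ℕ → Bool, ∀ G ∈ residual (ℕ → Bool), ∃ y ∈ G, ∀ k, (g' (cl y k) ∈ B ↔ a k = true) := by
  obtain ⟨s, hs, h1⟩ := exists_shift hB
  refine ⟨g ∘ s, hg.comp hs.measurable, fun a G hG => ?_⟩
  have h2 : J ⁻¹' G ∈ residual (ℕ → ℕ → Bool) :=
    tendsto_residual_of_isOpenMap hJ.continuous hJ.isOpenMap hG
  obtain ⟨x, hx, h3⟩ := pattern h1 a h2
  refine ⟨J x, hx, fun k => ?_⟩
  rw [cl_J]
  exact h3 k

end Pool.Agent.N620.RC
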